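import Mathlib

set_option autoImplicit false
set_option maxHeartbeats 400000
set_option linter.unusedSectionVars false

namespace Pool.Agent.H.MP_97d5d8_an

open MeasureTheory ProbabilityTheory Set Filter Topology

abbrev E := EuclideanSpace ℝ (Fin 2)

/-- The heat semigroup `e^{tΔ}` of the plane: `ξ` is a standard Gaussian vector. -/
noncomputable def P (t : ℝ) (φ : E → ℝ) (z : E) : ℝ := ∫ ξ, φ (z + √(2 * t) • ξ) ∂stdGaussian E

structure BM (φ : E → ℝ) : Prop where
  m : Measurable φ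
  b : ∃ C, ∀ z, |φ z| ≤ C

lemma bint {α : Type} [MeasurableSpace α] {μ : Measure α} [IsFiniteMeasure μ] {φ : α → ℝ} {C : ℝ}
    (m : Measurable φ) (b : ∀ z, |φ z| ≤ C) : Integrable φ μ :=
  (integrable_const C).mono' m.aestronglyMeasurable (.of_forall b)

variable {φ ψ : E → ℝ}

lemma BM.int (h : BM φ) (t : ℝ) (z : E) :
    Integrable (fun ξ => φ (z + √(2 * t) • ξ)) (stdGaussian E) :=
  h.b.elim fun _ b => bint (h.m.comp (by fun_prop)) fun _ => b _

lemma BM.add (h : BM φ) (g : BM ψ) : BM fun z => φ z + ψ z := by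
  obtain ⟨a, ha⟩ := h.b
  obtain ⟨b, hb⟩ := g.b
  exact ⟨h.m.add g.m, _, fun z => (abs_add_le _ _).trans (add_le_add (ha z) (hb z))⟩

lemma BM.mul (h : BM φ) (c : ℝ) : BM fun z => c * φ z := by
  obtain ⟨a, ha⟩ := h.b
  exact ⟨h.m.const_mul c, _, fun z => (abs_mul _ _).trans_le
    (mul_le_mul_of_nonneg_left (ha z) (abs_nonneg c))⟩

lemma BM.const (c : ℝ) : BM fun _ => c := ⟨measurable_const, _, fun _ => le_rfl⟩

lemma BM.ind {S : Set E} (h : MeasurableSet S) : BM (S.indicator 1) :=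
  ⟨measurable_one.indicator h, 1, fun z => by by_cases a : z ∈ S <;> simp [a]⟩

lemma P_zero (z : E) : P 0 φ z = φ z := by simp [P]

lemma P_const (t c : ℝ) (z : E) : P t (fun _ => c) z = c := by simp [P]

lemma P_add (h : BM φ) (g : BM ψ) (t : ℝ) (z : E) :
    P t (fun z => φ z + ψ z) z = P t φ z + P t ψ z := integral_add (h.int t z) (g.int t z)

lemma P_mul (c t : ℝ) (z : E) : P t (fun z => c * φ z) z = c * P t φ z := integral_const_mul _ _

lemma P_mono (h : BM φ) (g : BM ψ) (l : ∀ z, φ z ≤ ψ z) (t : ℝ) (z : E) : P t φ z ≤ P t ψ z :=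
  integral_mono (h.int t z) (g.int t z) fun _ => l _

lemma P_nonneg (l : ∀ z, 0 ≤ φ z) (t : ℝ) (z : E) : 0 ≤ P t φ z := integral_nonneg fun _ => l _

lemma P_abs {C : ℝ} (l : ∀ z, |φ z| ≤ C) (t : ℝ) (z : E) : |P t φ z| ≤ C := by
  simpa only [probReal_univ, mul_one] using! norm_integral_le_of_norm_le_const (μ := stdGaussian E)
    (f := fun ξ => φ (z + √(2 * t) • ξ)) (.of_forall fun _ => l _)

lemma P_meas {α : Type} [MeasurableSpace α] {F : α → E → ℝ} (h : Measurable (Function.uncurry F))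
    {t : α → ℝ} (ht : Measurable t) {z : α → E} (hz : Measurable z) :
    Measurable fun a => P (t a) (F a) (z a) :=
  (StronglyMeasurable.integral_prod_right (f := fun a ξ => F a (z a + √(2 * t a) • ξ))
    (h.comp (f := fun p : α × E => (p.1, z p.1 + √(2 * t p.1) • p.2))
      (by fun_prop)).stronglyMeasurable).measurable

lemma P_ind {S : Set E} (h : MeasurableSet S) (t : ℝ) (z : E) :
    P t (S.indicator 1) z = (stdGaussian E).real {ξ | z + √(2 * t) • ξ ∈ S} := by
  exact integral_indicator_one (h.preimage (f := fun ξ => z + √(2 * t) • ξ) (by fun_prop))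

lemma P_P (h : BM φ) {s t : ℝ} (hs : 0 ≤ s) (ht : 0 ≤ t) (z : E) : P t (P s φ) z = P (t + s) φ z := by
  have c : ((stdGaussian E).prod (stdGaussian E)).map (fun p => √(2 * t) • p.1 + √(2 * s) • p.2) =
      (stdGaussian E).map (√(2 * (t + s)) • ·) := by
    have : ((stdGaussian E).prod (stdGaussian E)).map (fun p => √(2 * t) • p.1 + √(2 * s) • p.2) =
      ((stdGaussian E).map (√(2 * t) • ·)).conv ((stdGaussian E).map (√(2 * s) • ·)) := by
      rw [Measure.conv, Measure.map_prod_map _ _ (by fun_prop) (by fun_prop),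
        Measure.map_map (by fun_prop) (by fun_prop)]
      rfl
    have i : ∀ a : ℝ, IsProbabilityMeasure ((stdGaussian E).map (a • ·)) := fun a =>
      Measure.isProbabilityMeasure_map (by fun_prop)
    rw [this]
    refine Measure.ext_of_charFun (funext fun x => ?_)
    simp only [charFun_conv, charFun_map_smul, charFun_stdGaussian, ← Complex.exp_add, norm_smul]
    congr 1
    norm_cast
    simp only [mul_pow, Real.norm_eq_abs, sq_abs]
    rw [Real.sq_sqrt (by linarith), Real.sq_sqrt (by linarith), Real.sq_sqrt (by linarith)]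
    ring
  obtain ⟨C, b⟩ := h.b
  have m : Measurable fun w => φ (z + w) := h.m.comp (by fun_prop)
  rw [P, P, ← integral_map (f := fun w => φ (z + w)) (by fun_prop) m.aestronglyMeasurable, ← c,
    integral_map (by fun_prop) m.aestronglyMeasurable,
    integral_prod _ (bint (φ := fun p : E × E => φ (z + (√(2 * t) • p.1 + √(2 * s) • p.2)))
      (m.comp (by fun_prop)) fun _ => b _)]
  simp only [P, add_assoc]

lemma int2 (h : BM φ) : ∫ ξ, φ ξ ∂stdGaussian E =
    ∫ b, ∫ a, φ !₂[a, b] ∂gaussianReal 0 1 ∂gaussianReal 0 1 := by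
  obtain ⟨C, b⟩ := h.b
  rw [← map_pi_eq_stdGaussian, integral_map (by fun_prop) h.m.aestronglyMeasurable,
    ← (measurePreserving_finTwoArrow (gaussianReal 0 1)).symm.integral_comp',
    integral_prod_symm _ (bint (φ := fun p : ℝ × ℝ => φ (WithLp.toLp 2
      (MeasurableEquiv.finTwoArrow.symm p))) (h.m.comp (by fun_prop)) fun _ => b _)]
  rfl

lemma tv {τ η : ℝ} (hτ : 0 < τ) (hη : 0 < η) : ∃ ε > 0, ∀ δ, |δ| ≤ ε → ∀ φ : E → ℝ, Measurable φ →
    (∀ z, φ z ∈ Icc (0 : ℝ) 1) → ∀ z, P τ φ z ≤ P τ φ (z - !₂[δ, 0]) + η := by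
  have p0 := gaussianPDFReal_nonneg 0 1
  have pi := integrable_gaussianPDFReal 0 1
  have pc : Continuous (gaussianPDFReal 0 1) := by unfold gaussianPDFReal; fun_prop
  have c : ContinuousAt (fun δ : ℝ => ∫ a, max (gaussianPDFReal 0 1 a -
      gaussianPDFReal 0 1 (a + δ / √(2 * τ))) 0) 0 :=
    continuousAt_of_dominated (.of_forall fun δ => by fun_prop) (.of_forall fun δ => .of_forall
      fun a => by rw [Real.norm_of_nonneg (le_max_right _ _)]; exact max_le (by simp [p0]) (p0 _)) pi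
      (.of_forall fun a => by fun_prop)
  obtain ⟨ε, e0, he⟩ := Metric.eventually_nhds_iff.1 (c.eventually_lt_const (by simpa using hη))
  refine ⟨ε / 2, by positivity, fun δ hδ φ m b z => ?_⟩
  have b' : ∀ z, |φ z| ≤ 1 := fun z => abs_le.2 ⟨by linarith [(b z).1], (b z).2⟩
  have k : ∀ z, BM fun ξ => φ (z + √(2 * τ) • ξ) := fun z => ⟨m.comp (by fun_prop), 1, fun _ => b' _⟩
  have i : ∀ z, Integrable (fun y => ∫ a, φ (z + √(2 * τ) • !₂[a, y]) ∂gaussianReal 0 1)
      (gaussianReal 0 1) := fun z => (bint (μ := (gaussianReal 0 1).prod (gaussianReal 0 1))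
    (φ := fun p => φ (z + √(2 * τ) • !₂[p.1, p.2])) (m.comp (by fun_prop))
      fun _ => b' _).integral_prod_right
  rw [P, P, int2 (k _), int2 (k _), show η = ∫ _, η ∂gaussianReal 0 1 by simp,
    ← integral_add (i _) (integrable_const _)]
  refine integral_mono (i _) ((i _).add (integrable_const _)) fun y => ?_
  have s0 : √(2 * τ) ≠ 0 := by positivity
  have e : ∀ a, z - !₂[δ, 0] + √(2 * τ) • !₂[a + δ / √(2 * τ), y] = z + √(2 * τ) • !₂[a, y] :=
    fun a => by ext j; fin_cases j <;> simp [field]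
  have mg : Measurable fun a => φ (z + √(2 * τ) • !₂[a, y]) := m.comp (by fun_prop)
  have j := fun {p : ℝ → ℝ} (h : Integrable p) => h.mul_bdd mg.aestronglyMeasurable
    (.of_forall fun _ => b' _)
  simp only [integral_gaussianReal_eq_integral_smul one_ne_zero, smul_eq_mul]
  rw [← integral_add_right_eq_self (fun a => _ * φ (z - !₂[δ, 0] + _ • !₂[a, y])) (δ / √(2 * τ)),
    ← sub_le_iff_le_add', funext fun a => congrArg (_ * φ ·) (e a),
    ← integral_sub (j pi) (j (pi.comp_add_right _))]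
  refine (integral_mono ((j pi).sub (j (pi.comp_add_right _)))
    (pi.sub (pi.comp_add_right (δ / √(2 * τ)))).pos_part fun a => ?_).trans
    (he (by simp; linarith)).le
  simp only [Pi.sub_apply, ← sub_mul]
  exact (mul_le_mul_of_nonneg_right (le_max_left _ 0) (b _).1).trans
    (mul_le_of_le_one_right (le_max_right _ _) (b _).2)

lemma opos {O : Set E} (h : IsOpen O) (n : O.Nonempty) : 0 < (stdGaussian E).real O := by
  have := (gaussianReal_absolutelyContinuous' 0 one_ne_zero).isOpenPosMeasure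
  refine ENNReal.toReal_pos ?_ (measure_ne_top _ _)
  rw [← map_pi_eq_stdGaussian, Measure.map_apply (by fun_prop) h.measurableSet]
  exact (h.preimage (by fun_prop)).measure_ne_zero _ (n.elim fun x hx => ⟨x.ofLp, hx⟩)

lemma tail : ∃ θ > 0, ∃ C, ∀ (S : Set E), MeasurableSet S → ∀ t z (r : ℝ), 0 ≤ r →
    (∀ w ∈ S, r ≤ ‖w - z‖) → 0 < t → P t (S.indicator 1) z ≤ C * Real.exp (-(θ * r ^ 2 / t)) := by
  obtain ⟨θ, θ0, h⟩ := IsGaussian.exists_integrable_exp_sq (stdGaussian E)
  refine ⟨θ / 2, by positivity, ∫ x, Real.exp (θ * ‖x‖ ^ 2) ∂stdGaussian E,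
    fun S m t z r r0 hr t0 => ?_⟩
  rw [P_ind m, Real.exp_neg, ← div_eq_mul_inv, le_div_iff₀' (Real.exp_pos _)]
  refine le_trans (mul_le_mul_of_nonneg_left (measureReal_mono fun ξ hξ => ?_) (Real.exp_pos _).le)
    (mul_meas_ge_le_integral_of_nonneg (.of_forall fun _ => (Real.exp_pos _).le) h _)
  have := pow_le_pow_left₀ r0 (hr _ hξ) 2
  rw [add_sub_cancel_left, norm_smul, mul_pow, Real.norm_eq_abs, sq_abs,
    Real.sq_sqrt (by linarith)] at this
  simp only [mem_ofPred_eq, Real.exp_le_exp, div_le_iff₀ t0]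
  nlinarith

end Pool.Agent.H.MP_97d5d8_an
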