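import Pool.Agent.H.MP_97d5d8_an.A

set_option autoImplicit false
set_option maxHeartbeats 400000
set_option linter.unusedSectionVars false

namespace Pool.Agent.H.MP_97d5d8_an

open MeasureTheory ProbabilityTheory Set Filter Topology Function Real

structure EB (F : ℝ → E → ℝ) : Prop where
  m : Measurable (uncurry F)
  b : ∃ C, ∀ s, 0 ≤ s → ∀ z, |F s z| ≤ C * exp s

structure Duh (w : ℝ → E → ℝ) (w0 : E → ℝ) (F : ℝ → E → ℝ) : Prop where
  w' : EB w
  i : BM w0
  f : EB F
  e : ∀ t, 0 ≤ t → ∀ z, w t z = P t w0 z + ∫ s in (0)..t, P (t - s) (F s) z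

variable {F G w v : ℝ → E → ℝ} {w0 v0 : E → ℝ}

lemma EB.bm (h : EB F) {s : ℝ} (hs : 0 ≤ s) : BM (F s) :=
  ⟨h.m.of_uncurry_left, h.b.elim fun _ b => ⟨_, b s hs⟩⟩

lemma EB.add (h : EB F) (g : EB G) : EB fun s z => F s z + G s z := by
  obtain ⟨a, ha⟩ := h.b
  obtain ⟨b, hb⟩ := g.b
  exact ⟨h.m.add g.m, a + b, fun s hs z => (abs_add_le _ _).trans
    ((add_le_add (ha s hs z) (hb s hs z)).trans_eq (add_mul _ _ _).symm)⟩

lemma EB.mul (h : EB F) (c : ℝ) : EB fun s z => c * F s z := by
  obtain ⟨a, ha⟩ := h.b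
  exact ⟨h.m.const_mul c, |c| * a, fun s hs z => by
    rw [abs_mul, mul_assoc]; exact mul_le_mul_of_nonneg_left (ha s hs z) (abs_nonneg c)⟩

lemma EB.sh (h : EB F) {t : ℝ} (ht : 0 ≤ t) (x : E) : EB fun s z => F (t + s) (z + x) := by
  obtain ⟨a, ha⟩ := h.b
  exact ⟨h.m.comp (f := fun p : ℝ × E => (t + p.1, p.2 + x)) (by fun_prop), a * exp t,
    fun s hs z => by rw [mul_assoc, ← exp_add]; exact ha _ (by linarith) _⟩

lemma EB.of_bd (m : Measurable (uncurry F)) (b : ∀ s, 0 ≤ s → ∀ z, |F s z| ≤ 1) : EB F :=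
  ⟨m, 1, fun s hs z => (b s hs z).trans (by simpa using hs)⟩

lemma EB.ii (h : EB F) (t : ℝ) (z : E) {a b : ℝ} (ha : 0 ≤ a) (hb : 0 ≤ b) :
    IntervalIntegrable (fun s => P (t - s) (F s) z) volume a b := by
  obtain ⟨C, hC⟩ := h.b
  refine (Continuous.intervalIntegrable (u := fun s => C * exp s) (by fun_prop) a b).mono_fun'
    (P_meas h.m (by fun_prop) measurable_const).aestronglyMeasurable ?_
  filter_upwards [ae_restrict_mem measurableSet_uIoc] with s hs
  exact P_abs (hC s ((le_min ha hb).trans hs.1.le)) _ _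

lemma Duh.add (h : Duh w w0 F) (g : Duh v v0 G) :
    Duh (fun s z => w s z + v s z) (fun z => w0 z + v0 z) fun s z => F s z + G s z :=
  ⟨h.w'.add g.w', h.i.add g.i, h.f.add g.f, fun t ht z => by
    rw [h.e t ht, g.e t ht, P_add h.i g.i, intervalIntegral.integral_congr (g := fun s =>
      P (t - s) (F s) z + P (t - s) (G s) z) fun s hs => P_add (h.f.bm (uIcc_of_le ht ▸ hs).1)
        (g.f.bm (uIcc_of_le ht ▸ hs).1) _ _,
      intervalIntegral.integral_add (h.f.ii t z le_rfl ht) (g.f.ii t z le_rfl ht)]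
    ring⟩

lemma Duh.mul (h : Duh w w0 F) (c : ℝ) :
    Duh (fun s z => c * w s z) (fun z => c * w0 z) fun s z => c * F s z :=
  ⟨h.w'.mul c, h.i.mul c, h.f.mul c, fun t ht z => by
    simp only [h.e t ht, P_mul, intervalIntegral.integral_const_mul, mul_add]⟩

lemma Duh.tr (h : Duh w w0 F) (x : E) :
    Duh (fun s z => w s (z + x)) (fun z => w0 (z + x)) fun s z => F s (z + x) :=
  ⟨by simpa using h.w'.sh le_rfl x, ⟨h.i.m.comp (by fun_prop), h.i.b.imp fun _ b _ => b _⟩,
    by simpa using h.f.sh le_rfl x, fun t ht z => by simp only [h.e t ht, P, add_right_comm]⟩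

lemma Duh.key (h : Duh w w0 F) {s τ : ℝ} (hs : 0 ≤ s) (hτ : 0 ≤ τ) (z : E) :
    P τ (w s) z = P (τ + s) w0 z + ∫ r in (0)..s, P (τ + s - r) (F r) z := by
  obtain ⟨C, hC⟩ := h.f.b
  obtain ⟨D, hD⟩ := h.i.b
  have a : BM (P s w0) := ⟨P_meas (F := fun _ : E => w0) (h.i.m.comp measurable_snd)
    measurable_const measurable_id, D, P_abs hD s⟩
  have b := (h.w'.bm hs).add (a.mul (-1))
  rw [show w s = fun z => P s w0 z + (w s z + -1 * P s w0 z) by funext; ring, P_add a b, P_P h.i hs hτ]
  congr 1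
  simp only [h.e s hs, neg_one_mul, add_neg_cancel_comm, intervalIntegral.integral_of_le hs]
  rw [P, integral_integral_swap]
  · exact setIntegral_congr_fun measurableSet_Ioc fun r hr => by
      rw [add_sub_assoc, ← P_P (h.f.bm hr.1.le) (sub_nonneg.2 hr.2) hτ]; rfl
  · refine (integrable_const (|C| * exp s)).mono' (P_meas (F := fun p : E × ℝ => F p.2)
      (h.f.m.comp (f := fun p : (E × ℝ) × E => (p.1.2, p.2)) (by fun_prop)) (by fun_prop)
      (by fun_prop)).aestronglyMeasurable ?_
    filter_upwards [Measure.quasiMeasurePreserving_snd.ae (ae_restrict_mem measurableSet_Ioc)] with p hp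
    exact (P_abs (hC _ hp.1.le) _ _).trans (mul_le_mul (le_abs_self _) (exp_le_exp.2 hp.2)
      (exp_pos _).le (abs_nonneg _))

lemma Duh.re (h : Duh w w0 F) {t : ℝ} (ht : 0 ≤ t) :
    Duh (fun s => w (t + s)) (w t) fun s => F (t + s) :=
  ⟨by simpa using h.w'.sh ht 0, h.w'.bm ht, by simpa using h.f.sh ht 0, fun s hs z => by
    rw [h.key ht hs, h.e _ (by linarith), add_comm s, add_assoc, ← intervalIntegral.integral_add_adjacent_intervals
      (h.f.ii _ z le_rfl ht) (h.f.ii _ z ht (by linarith))]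
    congr 2
    simpa using (intervalIntegral.integral_comp_add_left (a := 0) (b := s)
      (fun r => P (t + s - r) (F r) z) t).symm⟩

lemma iexp (c a b : ℝ) (hc : c ≠ 0) : ∫ s in a..b, exp (c * s) = (exp (c * b) - exp (c * a)) / c := by
  rw [intervalIntegral.integral_comp_mul_left exp hc, integral_exp, smul_eq_mul, inv_mul_eq_div]

lemma Duh.pos (h : Duh w w0 F) (h0 : ∀ z, 0 ≤ w0 z) (hF : ∀ s, 0 ≤ s → ∀ z, -|w s z| ≤ F s z)
    (t : ℝ) (ht : 0 ≤ t) (z : E) : 0 ≤ w t z := by
  obtain ⟨C, hC⟩ := h.w'.b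
  have k : ∀ k : ℕ, ∀ t, 0 ≤ t → ∀ z, -(|C| * (1 / 2) ^ k * exp (4 * t)) ≤ w t z := fun k => by
    induction k with
    | zero => exact fun t ht z => neg_le_of_abs_le ((hC t ht z).trans (by
        rw [pow_zero, mul_one]
        exact mul_le_mul (le_abs_self _) (exp_le_exp.2 (by linarith)) (exp_pos _).le (abs_nonneg _)))
    | succ k ih =>
      intro t ht z
      have c : ContinuousOn (fun s => P t w0 z + ∫ r in (0)..s, P (t - r) (F r) z) (Icc 0 t) :=
        continuousOn_const.add (uIcc_of_le ht ▸ intervalIntegral.continuousOn_primitive_interval'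
          (h.f.ii t z le_rfl ht) left_mem_uIcc)
      obtain ⟨a, ⟨a1, a2⟩, a3⟩ := (isCompact_Icc.of_isClosed_subset
        (c.preimage_isClosed_of_isClosed isClosed_Icc (isClosed_Ici (a := 0)))
        inter_subset_left).exists_isGreatest ⟨0, ⟨le_rfl, ht⟩, by simpa using P_nonneg h0 t z⟩
      set m := |C| * (1 / 2) ^ k with hm
      have m0 : 0 ≤ m := by positivity
      have b := intervalIntegral.integral_mono_on_of_le_Ioo (f := fun r => -2 * m * exp (4 * r)) a1.2
        (Continuous.intervalIntegrable (by fun_prop) _ _) (h.f.ii t z a1.1 ht) fun r hr => by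
          have r0 := a1.1.trans hr.1.le
          have e := h.key r0 (sub_nonneg.2 hr.2.le) z
          have := P_mono (((h.w'.bm r0).mul (-1)).add (.const (-2 * m * exp (4 * r)))) (h.f.bm r0)
            (fun z => le_trans (by
              have := mul_nonneg m0 (exp_pos (4 * r)).le
              cases abs_cases (w r z) <;> linarith [ih r r0 z]) (hF r r0 z)) (t - r) z
          rw [P_add ((h.w'.bm r0).mul _) (.const _), P_mul, P_const, e, sub_add_cancel] at this
          have := fun x => (a3 ⟨⟨r0, hr.2.le⟩, x⟩).not_gt hr.1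
          simp only [mem_preimage, mem_Ici, imp_false, not_le] at this
          linarith
      rw [intervalIntegral.integral_const_mul, iexp _ _ _ four_ne_zero] at b
      rw [h.e t ht, ← intervalIntegral.integral_add_adjacent_intervals (h.f.ii t z le_rfl a1.1)
        (h.f.ii t z a1.1 ht), pow_succ, ← mul_assoc, ← hm]
      simp only [mem_preimage, mem_Ici] at a2
      nlinarith [mul_nonneg m0 (exp_pos (4 * a)).le]
  refine le_of_tendsto' (x := atTop) (f := fun k : ℕ => -(|C| * (1 / 2) ^ k * exp (4 * t))) ?_ fun n => k n t ht z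
  simpa using (((tendsto_pow_atTop_nhds_zero_of_lt_one (r := (1 / 2 : ℝ)) (by norm_num)
    (by norm_num)).const_mul |C|).mul_const (exp (4 * t))).neg

lemma Duh.ode {Φ f : ℝ → ℝ} (c : Continuous f) (h : ∀ t, HasDerivAt Φ (f t) t)
    (b : ∀ t, |Φ t| ≤ 1) (b' : ∀ t, |f t| ≤ 1) :
    Duh (fun t _ => Φ t) (fun _ => Φ 0) fun t _ => f t :=
  ⟨.of_bd ((continuous_iff_continuousAt.2 fun t => (h t).continuousAt).measurable.comp measurable_fst)
    fun _ _ _ => b _, .const _, .of_bd (c.measurable.comp measurable_fst) fun _ _ _ => b' _,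
    fun t _ z => by
      simp [P_const, intervalIntegral.integral_eq_sub_of_hasDerivAt (fun s _ => h s)
        (c.intervalIntegrable _ _)]⟩

lemma Duh.lin {S : Set E} (h : MeasurableSet S) : Duh (fun t z => exp t * P t (S.indicator 1) z)
    (S.indicator 1) fun t z => exp t * P t (S.indicator 1) z := by
  have a : EB fun t z => exp t * P t (S.indicator 1) z :=
    ⟨(measurable_exp.comp measurable_fst).mul (P_meas (F := fun _ : ℝ × E => S.indicator 1)
      ((BM.ind h).m.comp measurable_snd) measurable_fst measurable_snd), 1, fun s _ z => by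
      rw [abs_mul, abs_exp, mul_comm]
      exact mul_le_mul_of_nonneg_right (P_abs (fun z => by by_cases a : z ∈ S <;> simp [a]) _ _)
        (exp_pos _).le⟩
  refine ⟨a, .ind h, a, fun t ht z => ?_⟩
  rw [intervalIntegral.integral_congr (g := fun s => exp s * P t (S.indicator 1) z) fun s hs => by
    rw [uIcc_of_le ht] at hs
    simp only [P_mul, P_P (.ind h) hs.1 (sub_nonneg.2 hs.2), sub_add_cancel]]
  simp [sub_mul]

/-- `u` is the mild solution with values in `[0, 1]` for `f (s) = s (1 - s)`. -/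
structure So (u0 : E → ℝ) (u : ℝ → E → ℝ) : Prop where
  d : Duh u u0 fun s z => u s z * (1 - u s z)
  r : ∀ t, 0 ≤ t → ∀ z, u t z ∈ Icc (0 : ℝ) 1

lemma So.mk' {u0 : E → ℝ} {u : ℝ → E → ℝ} (h0 : BM u0) (m : Measurable (uncurry u))
    (r : ∀ t, 0 ≤ t → ∀ z, u t z ∈ Icc (0 : ℝ) 1) (e : ∀ t, 0 ≤ t → ∀ z, u t z =
      P t u0 z + ∫ s in (0)..t, P (t - s) (fun z => u s z * (1 - u s z)) z) : So u0 u :=
  ⟨⟨.of_bd m fun s hs z => abs_le.2 ⟨by linarith [(r s hs z).1], (r s hs z).2⟩, h0,
    .of_bd (m.mul (measurable_const.sub m)) fun s hs z =>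
      abs_le.2 ⟨show -1 ≤ u s z * (1 - u s z) by nlinarith [(r s hs z).1, (r s hs z).2],
        show u s z * (1 - u s z) ≤ 1 by nlinarith [(r s hs z).1, (r s hs z).2]⟩, e⟩, r⟩

lemma exists_So {S : Set E} (hS : MeasurableSet S) : ∃ u, So (S.indicator 1) u := by
  obtain ⟨g, gc, g0, g1, g2, g3, g4⟩ : ∃ g : ℝ → ℝ, Continuous g ∧ (∀ x, 0 ≤ g x) ∧ (∀ x, |g x| ≤ 1) ∧
      (∀ x y, |g x - g y| ≤ |x - y|) ∧ (∀ x, g x ≤ |1 - x|) ∧ ∀ x ∈ Icc (0 : ℝ) 1, g x = x * (1 - x) := by
    have a : ∀ x : ℝ, 0 ≤ max 0 (min x 1) ∧ max 0 (min x 1) ≤ 1 := fun x => ⟨le_max_left _ _, by simp⟩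
    refine ⟨fun x => max 0 (min x 1) * (1 - max 0 (min x 1)), by fun_prop,
      fun x => by nlinarith [a x], fun x => abs_le.2 ⟨by nlinarith [a x], by nlinarith [a x]⟩,
      fun x y => ?_, fun x => ?_, fun x hx => by simp [hx.1, hx.2]⟩
    · have : |max 0 (min x 1) - max 0 (min y 1)| ≤ |x - y| := by
        simpa [Real.dist_eq] using ((LipschitzWith.id.min_const 1).const_max 0).dist_le_mul x y
      refine le_trans ?_ this
      beta_reduce
      have := a x
      have := a y
      generalize max 0 (min x 1) = p at *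
      generalize max 0 (min y 1) = q at *
      rw [show p * (1 - p) - q * (1 - q) = (p - q) * (1 - p - q) by ring, abs_mul]
      exact mul_le_of_le_one_right (abs_nonneg _) (abs_le.2 ⟨by linarith, by linarith⟩)
    · rcases le_total x 1 with c | c
      · have := a x
        beta_reduce
        rw [min_eq_left c] at *
        nlinarith [le_max_right 0 x, le_abs_self (1 - x)]
      · simp [c]
  let T : (ℝ → E → ℝ) → ℝ → E → ℝ := fun v t z =>
    P t (S.indicator 1) z + ∫ s in (0)..t, P (t - s) (fun z => g (v s z)) z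
  have eb : ∀ {v}, Measurable (uncurry v) → EB fun s z => g (v s z) := fun m =>
    .of_bd (gc.measurable.comp m) fun _ _ _ => g1 _
  have i1 : ∀ z, |S.indicator (1 : E → ℝ) z| ≤ 1 := fun z => by by_cases a : z ∈ S <;> simp [a]
  have Tm : ∀ {v}, Measurable (uncurry v) → Measurable (uncurry (T v)) := fun {v} m => by
    refine (P_meas (F := fun _ : ℝ × E => S.indicator 1) ((BM.ind hS).m.comp measurable_snd)
      measurable_fst measurable_snd).add ?_
    have := fun p : ℝ × E => intervalIntegral.smul_integral_comp_mul_left (a := 0) (b := 1)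
      (fun s => P (p.1 - s) (fun z => g (v s z)) p.2) p.1
    simp only [mul_zero, mul_one, intervalIntegral.integral_of_le zero_le_one] at this
    simp only [← this]
    exact measurable_fst.smul (StronglyMeasurable.integral_prod_right (P_meas
      (F := fun p : (ℝ × E) × ℝ => fun z => g (v (p.1.1 * p.2) z)) (gc.measurable.comp (m.comp
      (f := fun p : ((ℝ × E) × ℝ) × E => (p.1.1.1 * p.1.2, p.2)) (by fun_prop))) (by fun_prop)
      (by fun_prop)).stronglyMeasurable).measurable
  have Tc : ∀ {v v' c}, Measurable (uncurry v) → Measurable (uncurry v') → 0 ≤ c →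
      (∀ s, 0 ≤ s → ∀ z, |v s z - v' s z| ≤ c * exp (2 * s)) →
      ∀ t, 0 ≤ t → ∀ z, |T v t z - T v' t z| ≤ c / 2 * exp (2 * t) := fun {v v' c} m m' c0 b t ht z => by
    simp only [T, add_sub_add_left_eq_sub]
    rw [← intervalIntegral.integral_sub ((eb m).ii t z le_rfl ht) ((eb m').ii t z le_rfl ht)]
    rw [← Real.norm_eq_abs]
    refine (intervalIntegral.norm_integral_le_of_norm_le ht (g := fun s => c * exp (2 * s))
      (.of_forall fun s hs => ?_) (Continuous.intervalIntegrable (by fun_prop) _ _)).trans ?_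
    · rw [sub_eq_add_neg, ← neg_one_mul, ← P_mul, ← P_add ((eb m).bm hs.1.le) (((eb m').bm hs.1.le).mul _)]
      exact P_abs (fun z => by simpa [← sub_eq_add_neg] using (g2 _ _).trans (b s hs.1.le z)) _ _
    · rw [intervalIntegral.integral_const_mul, iexp _ _ _ two_ne_zero, mul_zero, exp_zero]
      linarith
  have um : ∀ k, Measurable (uncurry (T^[k] fun _ _ => 0)) := fun k => by
    induction k with
    | zero => exact measurable_const
    | succ k ih => rw [iterate_succ_apply']; exact Tm ih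
  have ub : ∀ k : ℕ, ∀ t, 0 ≤ t → ∀ z, |(T^[k] fun _ _ => 0) t z - (T^[k + 1] fun _ _ => 0) t z| ≤
      1 / 2 ^ k * exp (2 * t) := fun k => by
    induction k with
    | zero =>
      intro t ht z
      simpa [T, g4 0 (by simp), P_const] using
        (P_abs i1 t z).trans (one_le_exp (by linarith : 0 ≤ 2 * t))
    | succ k ih =>
      rw [iterate_succ_apply' T (k + 1), pow_succ, ← div_div]
      nth_rw 1 [iterate_succ_apply']
      exact Tc (um _) (um _) (by positivity) ih
  let u : ℝ → E → ℝ := fun t z => limsup (fun k => (T^[k] fun _ _ => 0) t z) atTop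
  have m : Measurable (uncurry u) := Measurable.limsup um
  have uc : ∀ k : ℕ, ∀ t, 0 ≤ t → ∀ z, |(T^[k] fun _ _ => 0) t z - u t z| ≤ 2 / 2 ^ k * exp (2 * t) :=
    fun k t ht z => by
      have a : ∀ n, dist ((T^[n] fun _ _ => 0) t z) ((T^[n + 1] fun _ _ => 0) t z) ≤
        2 * exp (2 * t) / 2 / 2 ^ n := fun n => (ub n t ht z).trans_eq (by ring)
      obtain ⟨l, hl⟩ := cauchySeq_tendsto_of_complete (cauchySeq_of_le_geometric_two a)
      simp only [u, hl.limsup_eq]
      exact (dist_le_of_le_geometric_two_of_tendsto a hl k).trans_eq (by ring)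
  have e : ∀ t, 0 ≤ t → ∀ z, u t z = T u t z := fun t ht z => by
    refine eq_of_abs_sub_nonpos (ge_of_tendsto' (f := fun k : ℕ => 2 * exp (2 * t) * (1 / 2) ^ k)
      (by simpa using (tendsto_pow_atTop_nhds_zero_of_lt_one (r := (1 / 2 : ℝ)) (by norm_num)
        (by norm_num)).const_mul (2 * exp (2 * t))) fun k => ?_)
    have a := uc (k + 1) t ht z
    rw [iterate_succ_apply', abs_sub_comm] at a
    exact (abs_sub_le _ _ _).trans ((add_le_add a (Tc (um k) m (by positivity) (uc k) t ht z)).trans_eq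
      (by rw [one_div, inv_pow]; field_simp; ring))
  have d : Duh u (S.indicator 1) fun s z => g (u s z) := ⟨⟨m, 1, fun t ht z => by
    rw [e t ht]
    refine (abs_add_le _ _).trans ((add_le_add (P_abs i1 t z)
      (intervalIntegral.norm_integral_le_of_norm_le_const (E := ℝ) (C := 1)
        (f := fun s => P (t - s) (fun z => g (u s z)) z) (a := 0) (b := t)
        fun s _ => P_abs (fun _ => g1 _) _ _)).trans ?_)
    simpa [abs_of_nonneg ht, add_comm] using add_one_le_exp t⟩, .ind hS, eb m, e⟩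
  have r : ∀ t, 0 ≤ t → ∀ z, u t z ∈ Icc (0 : ℝ) 1 := fun t ht z => ⟨by
    rw [e t ht]
    exact add_nonneg (P_nonneg (fun z => indicator_nonneg (by simp) z) _ _)
      (intervalIntegral.integral_nonneg ht fun s _ => P_nonneg (fun _ => g0 _) _ _), by
    have := ((Duh.ode (Φ := fun _ => 1) continuous_const (fun t => hasDerivAt_const t _) (by simp)
      (by simp)).add (d.mul (-1))).pos (fun z => by linarith [le_of_abs_le (i1 z)])
      (fun s _ z => by simpa [← sub_eq_add_neg] using g3 _) t ht z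
    linarith⟩
  refine ⟨u, .mk' (.ind hS) m r fun t ht z => (e t ht z).trans ?_⟩
  refine congrArg (_ + ·) (intervalIntegral.integral_congr fun s hs => ?_)
  simp only [fun z => g4 _ (r s (uIcc_of_le ht ▸ hs).1 z)]

end Pool.Agent.H.MP_97d5d8_an
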