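import Pool.Agent.H.MP_97d5d8_an.B

set_option autoImplicit false
set_option maxHeartbeats 400000
set_option linter.unusedSectionVars false

namespace Pool.Agent.H.MP_97d5d8_an

open MeasureTheory ProbabilityTheory Set Filter Topology Function Real

variable {u a b : ℝ → E → ℝ} {u0 a0 b0 : E → ℝ}

lemma So.tr (h : So u0 u) (x : E) : So (fun z => u0 (z + x)) fun s z => u s (z + x) :=
  ⟨h.d.tr x, fun t ht _ => h.r t ht _⟩

lemma So.re (h : So u0 u) {t : ℝ} (ht : 0 ≤ t) : So (u t) fun s => u (t + s) :=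
  ⟨h.d.re ht, fun s hs => h.r _ (by linarith)⟩

lemma ab {w c r : ℝ} (h1 : -1 ≤ c) (h2 : c ≤ 1) (h : 0 ≤ r) : -|w| ≤ c * w + r := by
  cases abs_cases w <;> nlinarith

lemma cmp (ha : So a0 a) (hb : So b0 b) (h : ∀ z, a0 z ≤ b0 z) {t : ℝ} (ht : 0 ≤ t) (z : E) :
    a t z ≤ b t z := by
  have := (hb.d.add (ha.d.mul (-1))).pos (fun z => by linarith [h z]) (fun s hs z => by
    have := ab (w := b s z + -1 * a s z) (c := 1 - a s z - b s z) (by
      linarith [(ha.r s hs z).2, (hb.r s hs z).2]) (by linarith [(ha.r s hs z).1, (hb.r s hs z).1]) le_rfl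
    linarith) t ht z
  linarith

lemma So.bd (h : So u0 u) {t : ℝ} (ht : 0 ≤ t) (z : E) : P t u0 z ≤ u t z ∧ u t z ≤ P t u0 z + t := by
  rw [h.d.e t ht]
  refine ⟨le_add_of_nonneg_right (intervalIntegral.integral_nonneg ht fun s hs => P_nonneg
    (fun z => by nlinarith [(h.r s hs.1 z).1, (h.r s hs.1 z).2]) _ _), add_le_add_right ?_ _⟩
  simpa using intervalIntegral.integral_mono_on ht (h.d.f.ii t z le_rfl ht) (g := fun _ => 1)
    (by simp) fun s hs => le_of_abs_le (P_abs (fun z => abs_le.2 ⟨by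
      nlinarith [(h.r s hs.1 z).1, (h.r s hs.1 z).2], by nlinarith [(h.r s hs.1 z).1, (h.r s hs.1 z).2]⟩) _ _)

lemma modc {η : ℝ} (hη : 0 < η) : ∃ ε > 0, ∀ δ, |δ| ≤ ε → ∀ {u0 u}, So u0 u → ∀ t, 1 ≤ t → ∀ z,
    u t z ≤ u t (z + !₂[δ, 0]) + η := by
  have τ0 : 0 < min 1 (η / 2) := by positivity
  obtain ⟨ε, e0, he⟩ := tv τ0 (half_pos hη)
  refine ⟨ε, e0, fun δ hδ u0 u h t ht z => ?_⟩
  have t0 : 0 ≤ t - min 1 (η / 2) := by linarith [min_le_left 1 (η / 2)]
  have a := ((h.re t0).bd τ0.le z).2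
  have b := ((h.re t0).bd τ0.le (z + !₂[δ, 0])).1
  have c := he (-δ) (by rwa [abs_neg]) _ (h.d.w'.bm t0).m (h.r _ t0) z
  rw [show z - !₂[-δ, 0] = z + !₂[δ, 0] by ext j; fin_cases j <;> simp] at c
  simp only [sub_add_cancel] at a b
  linarith [min_le_right 1 (η / 2)]

def U : Set E := {z | z 1 ≤ z 0 ^ 2}

lemma mU : MeasurableSet U := measurableSet_le (by fun_prop) (by fun_prop)

lemma spread (h : So (U.indicator 1) u) {l η : ℝ} (hl : 0 ≤ l) (hη : 0 < η) :
    ∀ᶠ t in atTop, ∀ z, ‖z‖ ≤ l * t → 1 - η ≤ u t z := by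
  obtain ⟨κ, κ0, κ1, hκ⟩ : ∃ κ > 0, κ ≤ 1 ∧ ∀ σ : ℝ, σ = 1 ∨ σ = -1 →
      κ ≤ (stdGaussian E).real {ξ | l + 1 < σ * ξ 0 ∧ ξ 1 < 0} := by
    have o : ∀ σ : ℝ, σ * σ = 1 → 0 < (stdGaussian E).real {ξ | l + 1 < σ * ξ 0 ∧ ξ 1 < 0} :=
      fun σ s => opos (IsOpen.and (isOpen_lt (f := fun _ => l + 1) continuous_const (by fun_prop))
        (isOpen_lt (g := fun _ => 0) (by fun_prop) continuous_const)) ⟨!₂[σ * (l + 2), -1], by simp [← mul_assoc, s]⟩
    refine ⟨min _ _, lt_min (o 1 (by simp)) (o (-1) (by simp)),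
      (min_le_left _ _).trans measureReal_le_one, ?_⟩
    rintro _ (rfl | rfl)
    exacts [min_le_left _ _, min_le_right _ _]
  have D : ∀ s, 0 < 1 - κ + κ * exp s := fun s => by have := mul_pos κ0 (exp_pos s); linarith
  set Φ : ℝ → ℝ := fun s => κ * exp s / (1 - κ + κ * exp s) with hΦ
  have Φ0 : ∀ s, 0 ≤ Φ s := fun s => div_nonneg (by positivity) (D s).le
  have Φ1 : ∀ s, Φ s ≤ 1 := fun s => (div_le_one (D s)).2 (by linarith)
  have dΦ : ∀ s, HasDerivAt Φ (Φ s * (1 - Φ s)) s := fun s => by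
    refine (((hasDerivAt_exp s).const_mul κ).fun_div (((hasDerivAt_exp s).const_mul κ).const_add (1 - κ))
      (D s).ne').congr_deriv ?_
    have := D s
    simp only [hΦ]; field_simp
  have cΦ : Continuous Φ := continuous_iff_continuousAt.2 fun s => (dΦ s).continuousAt
  have dd := Duh.ode (f := fun s => Φ s * (1 - Φ s)) (cΦ.mul (continuous_const.sub cΦ)) dΦ
     (fun s => abs_le.2 ⟨by linarith [Φ0 s], Φ1 s⟩)
    fun s => abs_le.2 ⟨by nlinarith [Φ0 s, Φ1 s], by nlinarith [Φ0 s, Φ1 s]⟩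
  set T := 2 / (η * κ) with hT
  have T0 : 0 < T := by positivity
  have ΦT : 1 - η / 2 ≤ Φ T := by
    rw [le_div_iff₀ (D T)]
    have : η * κ * T = 2 := by rw [hT]; field_simp
    nlinarith [add_one_le_exp T, mul_pos hη κ0]
  obtain ⟨θ, θ0, C, hC⟩ := tail
  have lim : Tendsto (fun t : ℝ => exp T * (C * exp (-(θ * t ^ 2 / T)))) atTop (𝓝 0) := by
    simpa using ((tendsto_exp_neg_atTop_nhds_zero.comp (((tendsto_pow_atTop two_ne_zero).const_mul_atTop
      θ0).atTop_div_const T0)).const_mul C).const_mul (exp T)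
  filter_upwards [eventually_ge_atTop (2 * T), lim.eventually_le_const (half_pos hη)] with t t1 t2 z hz
  have t0 : 0 ≤ t - T := by linarith
  have mS : MeasurableSet {w : E | t ≤ ‖w - z‖} := measurableSet_le (by fun_prop) (by fun_prop)
  have := (((h.re t0).d.add (dd.mul (-1))).add (Duh.lin mS)).pos (fun w => ?_) (fun s hs w => ?_) T
    T0.le z
  · have := mul_le_mul_of_nonneg_left (hC _ mS T z t (by linarith) (fun _ h => h) T0) (exp_pos T).le
    simp only [sub_add_cancel] at *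
    linarith
  · have e : Φ 0 = κ := by simp [hΦ]
    by_cases c : w ∈ {w : E | t ≤ ‖w - z‖}
    · rw [indicator_of_mem c, e, Pi.one_apply]; linarith [(h.r _ t0 w).1]
    obtain ⟨σ, s1, s2⟩ : ∃ σ : ℝ, (σ = 1 ∨ σ = -1) ∧ 0 ≤ σ * w 0 := by
      rcases le_total 0 (w 0) with o | o
      exacts [⟨1, .inl rfl, by linarith⟩, ⟨-1, .inr rfl, by linarith⟩]
    have a := ((hκ σ s1).trans (measureReal_mono fun ξ hξ => ?_)).trans
      ((P_ind mU _ w).symm.le.trans (h.bd t0 w).1)
    · rw [indicator_of_notMem c, e]; linarith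
    have b : w 1 ≤ (l + 1) * t := by
      have := norm_add_le (w - z) z
      have := (le_abs_self _).trans (PiLp.norm_apply_le w 1)
      simp at *
      linarith
    have r0 := sqrt_nonneg (2 * (t - T))
    have r1 := sq_sqrt (show 0 ≤ 2 * (t - T) by linarith)
    simp only [U, mem_ofPred_eq, PiLp.add_apply, PiLp.smul_apply, smul_eq_mul]
    generalize √(2 * (t - T)) = r at *
    have f : r * (l + 1) ≤ σ * (w 0 + r * ξ 0) := by nlinarith [hξ.1]
    have g := pow_le_pow_left₀ (by positivity) f 2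
    have : σ ^ 2 = 1 := by rcases s1 with rfl | rfl <;> simp
    rw [mul_pow, mul_pow, this, r1] at g
    nlinarith [mul_nonneg r0 (neg_nonneg.2 hξ.2.le), mul_nonneg hl (show 0 ≤ t by linarith),
      mul_nonneg (sq_nonneg (l + 1)) (show 0 ≤ t - 2 * T by linarith), mul_nonneg hl hl]
  · have p : 0 ≤ exp s * P s ({w : E | t ≤ ‖w - z‖}.indicator 1) w := mul_nonneg (exp_pos s).le
      (P_nonneg (fun x => indicator_nonneg (s := {w : E | t ≤ ‖w - z‖}) (f := 1) (by simp) x) s w)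
    have q := h.r (t - T + s) (by linarith) w
    have := ab (w := u (t - T + s) w + -1 * Φ s + exp s * P s ({w : E | t ≤ ‖w - z‖}.indicator 1) w)
      (c := 1 - u (t - T + s) w - Φ s) (by linarith [q.2, Φ1 s]) (by linarith [q.1, Φ0 s])
      (mul_nonneg (add_nonneg q.1 (Φ0 s)) p)
    linarith

lemma main (h : So (U.indicator 1) u) {k η : ℝ} (hk : 0 ≤ k) (hη : 0 < η) :
    ∀ᶠ t in atTop, ∀ z, |u t z - u t (z + !₂[0, k])| ≤ η := by
  obtain ⟨ε, e0, he⟩ := modc (show 0 < η / 3 by positivity)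
  have h' := h.tr !₂[0, k]
  have i0 : ∀ (S : Set E) z, 0 ≤ S.indicator (1 : E → ℝ) z := fun S z => indicator_nonneg (by simp) z
  have il : ∀ {S T : Set E} {z w : E}, (z ∈ S → w ∈ T) → S.indicator (1 : E → ℝ) z ≤
      T.indicator (1 : E → ℝ) w := fun {S T z w} h => by
    by_cases c : z ∈ S
    · simp [c, h c]
    · simpa [c] using i0 T w
  have R0 : 0 ≤ k / ε := by positivity
  have R1 : k / ε * ε = k := by field_simp
  generalize k / ε = R at R0 R1
  let W : ℝ → Set E := fun σ => {z | R ≤ σ * z 0 ∧ z 1 ≤ z 0 ^ 2}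
  have mW : ∀ σ, MeasurableSet (W σ) := fun σ => MeasurableSet.inter (s₁ := {z : E | R ≤ σ * z 0})
    (measurableSet_le measurable_const (by fun_prop)) mU
  choose v hv using fun σ => exists_So (mW σ)
  have w1 : ∀ σ : ℝ, σ * σ = 1 → ∀ z : E, z + !₂[-σ * ε, 0] ∈ W σ → z ∈ W σ ∧ z + !₂[0, k] ∈ U :=
    fun σ s z hz => by
      simp [W, U] at hz ⊢
      have : σ * (σ * ε) = ε := by rw [← mul_assoc, s, one_mul]
      refine ⟨⟨by nlinarith, by nlinarith⟩, by nlinarith⟩
  have c1 := fun σ s {t} (ht : 0 ≤ t) z => And.intro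
    (cmp ((hv σ).tr !₂[-σ * ε, 0]) (hv σ) (fun z => il fun c => (w1 σ s z c).1) ht z) (And.intro
    (cmp ((hv σ).tr !₂[-σ * ε, 0]) h' (fun z => il fun c => (w1 σ s z c).2) ht z)
    (cmp (hv σ) h (fun z => il fun c => c.2) ht z))
  have mK : MeasurableSet (Metric.closedBall (0 : E) (R + R ^ 2 + k)) := Metric.isClosed_closedBall.measurableSet
  have key := ((((((hv 1).d.add (((hv 1).tr !₂[-1 * ε, 0]).d.mul (-1))).add ((hv (-1)).d.add
    (((hv (-1)).tr !₂[- -1 * ε, 0]).d.mul (-1)))).add (Duh.lin mK)).add (h.d.mul (-1))).add h'.d).pos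
    (fun z => ?_) fun s hs z => ?_
  · obtain ⟨θ, θ0, C, hC⟩ := tail
    have lim : Tendsto (fun t : ℝ => C * exp (-t)) atTop (𝓝 0) := by
      simpa using tendsto_exp_neg_atTop_nhds_zero.const_mul C
    have C0 : 0 ≤ C := by simpa [P] using hC ∅ .empty 1 0 0 le_rfl (by simp) one_pos
    filter_upwards [eventually_ge_atTop 1, eventually_ge_atTop (R + R ^ 2 + 2 * k),
      lim.eventually_le_const (show 0 < η / 3 by positivity),
      spread h (l := 2 / θ + 2) (by positivity) hη] with t t1 t2 t3 t4 z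
    have t0 : 0 ≤ t := by linarith
    rw [abs_of_nonneg (sub_nonneg.2 (cmp h' h (fun z => il fun c => by
      simp [U] at c ⊢; linarith) t0 z))]
    by_cases c : ‖z‖ ≤ (2 / θ + 1) * t + (R + R ^ 2 + k)
    · have := t4 (z + !₂[0, k]) ((norm_add_le _ _).trans (by
        rw [EuclideanSpace.norm_eq !₂[0, k]]; simp [hk]; linarith))
      linarith [(h.r t t0 z).2]
    have a := hC _ mK t z ((2 / θ + 1) * t) (by positivity) (fun w hw => by
      have := norm_sub_norm_le z w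
      rw [norm_sub_rev] at this
      linarith [mem_closedBall_zero_iff.1 hw]) (by linarith)
    have b : exp t * (C * exp (-(θ * ((2 / θ + 1) * t) ^ 2 / t))) ≤ C * exp (-t) := by
      rw [mul_left_comm, ← exp_add]
      refine mul_le_mul_of_nonneg_left (exp_le_exp.2 ?_) C0
      rw [show θ * ((2 / θ + 1) * t) ^ 2 / t = (2 + θ) * (2 / θ + 1) * t by field_simp]
      nlinarith [mul_nonneg (mul_nonneg (by positivity : 0 ≤ 2 + θ) (by positivity : 0 ≤ 2 / θ)) t0,
        mul_nonneg θ0.le t0]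
    have e1 := key t t0 z
    have e2 := ((mul_le_mul_of_nonneg_left a (exp_pos t).le).trans b).trans t3
    have e3 := he (-1 * ε) (by simp [abs_of_pos e0]) (hv 1) t t1 z
    have e4 := he (- -1 * ε) (by simp [abs_of_pos e0]) (hv (-1)) t t1 z
    have e5 : ∀ a a' b b' c d d' : ℝ, 0 ≤ a + -1 * a' + (b + -1 * b') + c + -1 * d + d' → c ≤ η / 3 →
        a ≤ a' + η / 3 → b ≤ b' + η / 3 → d - d' ≤ η := fun _ _ _ _ _ _ _ _ _ _ _ => by linarith
    exact e5 _ _ _ _ _ _ _ e1 e2 e3 e4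
  · have a := fun σ s => il (w1 σ s z · |>.1)
    have b := fun σ s => il (w1 σ s z · |>.2)
    have a1 := a 1 (by simp)
    have a2 := a (-1) (by simp)
    have k0 := i0 (Metric.closedBall (0 : E) (R + R ^ 2 + k)) z
    by_cases c : z + !₂[0, k] ∈ U
    · have := il (S := U) (z := z) fun _ => c
      linarith
    rw [indicator_of_notMem c] at b ⊢
    have b1 := b 1 (by simp)
    have b2 := b (-1) (by simp)
    rcases le_or_gt R (1 * z 0) with o | o
    · linarith [il (S := U) (T := W 1) (z := z) (w := z) fun c => ⟨o, c⟩]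
    rcases le_or_gt R (-1 * z 0) with o' | o'
    · linarith [il (S := U) (T := W (-1)) (z := z) (w := z) fun c => ⟨o', c⟩]
    have := il (S := U) (T := Metric.closedBall 0 (R + R ^ 2 + k)) (z := z) (w := z) fun d => by
      rw [mem_closedBall_zero_iff, EuclideanSpace.norm_eq, sqrt_le_left (by positivity)]
      simp [U] at c d ⊢
      have : z 0 ^ 2 ≤ R ^ 2 := sq_le_sq' (by linarith) (by linarith)
      have : z 1 ^ 2 ≤ (R ^ 2 + k) ^ 2 := sq_le_sq' (by nlinarith) (by linarith)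
      nlinarith [mul_nonneg R0 (by positivity : 0 ≤ R ^ 2 + k)]
    linarith
  · obtain ⟨a1, a2, a3⟩ := c1 1 (by simp) hs z
    obtain ⟨b1, b2, b3⟩ := c1 (-1) (by simp) hs z
    have p := mul_nonneg (exp_pos s).le (P_nonneg (i0 (Metric.closedBall (0 : E) (R + R ^ 2 + k))) s z)
    have q := h.r s hs z
    have q' := h'.r s hs z
    refine le_trans (ab (c := 1 - u s z - u s (z + !₂[0, k])) (by linarith [q.2, q'.2])
      (by linarith [q.1, q'.1]) (add_nonneg (add_nonneg (mul_nonneg (sub_nonneg.2 a1)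
      (add_nonneg (sub_nonneg.2 a2) (sub_nonneg.2 a3))) (mul_nonneg (sub_nonneg.2 b1)
      (add_nonneg (sub_nonneg.2 b2) (sub_nonneg.2 b3)))) (mul_nonneg (add_nonneg q.1 q'.1) p))) ?_
    linarith

end Pool.Agent.H.MP_97d5d8_an
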